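import Pool.Agent.Helper88.CG.Goals

/-!
# CG-BW: bilinear forms with the tent weight (packet 3974)
-/

set_option autoImplicit false

open Finset Filter Topology

open scoped Classical

namespace Pool.Agent.Helper55.CG

open Pool.Agent.Helper88.CG

theorem sum_inv_sq_le (K : ℕ) : ∑ ν ∈ range K, 1 / ((ν : ℝ) + 1) ^ 2 ≤ 2 := by
  have h : ∀ K : ℕ, ∑ ν ∈ range (K + 1), 1 / ((ν : ℝ) + 1) ^ 2 ≤ 2 - 1 / ((K : ℝ) + 1) := by
    intro K
    induction K with
    | zero => norm_num
    | succ K ih =>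
      rw [sum_range_succ]
      have h1 : 1 / (((K + 1 : ℕ) : ℝ) + 1) ^ 2 ≤
          1 / ((K : ℝ) + 1) - 1 / (((K + 1 : ℕ) : ℝ) + 1) := by
        push_cast
        have hK : (0 : ℝ) ≤ K := Nat.cast_nonneg K
        rw [div_sub_div _ _ (by positivity) (by positivity),
          div_le_div_iff₀ (by positivity) (by positivity)]
        nlinarith
      linarith
  cases K with
  | zero => simp
  | succ K =>
    have h1 := h K
    have h2 : 0 ≤ 1 / ((K : ℝ) + 1) := by positivity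
    linarith

theorem one_le_log_four : (1 : ℝ) ≤ Real.log 4 := by
  have h : (4 : ℝ) = 2 ^ 2 := by norm_num
  rw [h, Real.log_pow]
  have := Real.log_two_gt_d9
  push_cast
  linarith

/-- The coefficients of the cosine series. -/
noncomputable def cf (h : ℝ) (ν : ℕ) : ℝ :=
  (1 - Real.cos (2 * Real.pi * ((ν : ℝ) + 1) * h)) / (h * Real.pi ^ 2 * ((ν : ℝ) + 1) ^ 2)

theorem abs_cf_le {h : ℝ} (hh : 0 < h) (ν : ℕ) : |cf h ν| ≤ 1 / (2 * h) * (1 / ((ν : ℝ) + 1) ^ 2) := by
  rw [cf, abs_div]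
  have hpi : (4 : ℝ) ≤ Real.pi ^ 2 := by
    have := Real.pi_gt_three
    nlinarith
  have h1 : |1 - Real.cos (2 * Real.pi * ((ν : ℝ) + 1) * h)| ≤ 2 := by
    rw [abs_le]
    constructor
    · linarith [Real.cos_le_one (2 * Real.pi * ((ν : ℝ) + 1) * h)]
    · linarith [Real.neg_one_le_cos (2 * Real.pi * ((ν : ℝ) + 1) * h)]
  have h2 : |h * Real.pi ^ 2 * ((ν : ℝ) + 1) ^ 2| = h * Real.pi ^ 2 * ((ν : ℝ) + 1) ^ 2 :=
    abs_of_pos (by positivity)
  rw [h2]
  calc |1 - Real.cos (2 * Real.pi * ((ν : ℝ) + 1) * h)| / (h * Real.pi ^ 2 * ((ν : ℝ) + 1) ^ 2)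
      ≤ 2 / (h * 4 * ((ν : ℝ) + 1) ^ 2) := by gcongr
    _ = 1 / (2 * h) * (1 / ((ν : ℝ) + 1) ^ 2) := by
        field_simp
        norm_num

theorem sum_abs_cf_le {h : ℝ} (hh : 0 < h) (K : ℕ) : ∑ ν ∈ range K, |cf h ν| ≤ 1 / h := by
  calc ∑ ν ∈ range K, |cf h ν| ≤ ∑ ν ∈ range K, 1 / (2 * h) * (1 / ((ν : ℝ) + 1) ^ 2) :=
        sum_le_sum fun ν _ => abs_cf_le hh ν
    _ = 1 / (2 * h) * ∑ ν ∈ range K, 1 / ((ν : ℝ) + 1) ^ 2 := by rw [mul_sum]
    _ ≤ 1 / (2 * h) * 2 := by
        have := sum_inv_sq_le K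
        gcongr
    _ = 1 / h := by field_simp

/-- The tent as a cosine series. -/
theorem tent_hasSum (h2 : StmtTF) {x : ℕ} (hx : 4 ≤ x) {N : ℕ} (hN : 1 ≤ N) (hN' : N ≤ 4 * x) :
    HasSum (fun ν : ℕ => cf (Real.log 4 / (4 * Real.log x)) ν *
      Real.cos (2 * Real.pi * ((ν : ℝ) + 1) * (Real.log (4 * N / x) / (4 * Real.log x))))
      (tw x N - Real.log 4 / (4 * Real.log x)) := by
  have hx0 : (4 : ℝ) ≤ x := by exact_mod_cast hx
  have hxp : (0 : ℝ) < x := by linarith
  have hL4 : Real.log 4 ≤ Real.log x := Real.log_le_log (by norm_num) hx0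
  have h4 := one_le_log_four
  have hL : 0 < Real.log x := by linarith
  have hNp : (0 : ℝ) < N := by exact_mod_cast hN
  have hN1 : (1 : ℝ) ≤ N := by exact_mod_cast hN
  have hN2 : (N : ℝ) ≤ 4 * x := by exact_mod_cast hN'
  have hu : |Real.log (4 * N / x) / (4 * Real.log x)| ≤ 1 / 2 := by
    rw [abs_div, abs_of_pos (by positivity : (0 : ℝ) < 4 * Real.log x), div_le_iff₀ (by positivity),
      abs_le]
    constructor
    · have h5 : Real.log (1 / x) ≤ Real.log (4 * N / x) := by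
        apply Real.log_le_log (by positivity)
        gcongr
        linarith
      rw [Real.log_div one_ne_zero hxp.ne', Real.log_one] at h5
      linarith
    · have h5 : Real.log (4 * N / x) ≤ Real.log 16 := by
        apply Real.log_le_log (by positivity)
        rw [div_le_iff₀ hxp]
        linarith
      have h6 : Real.log 16 = 2 * Real.log 4 := by
        rw [show (16 : ℝ) = 4 ^ 2 by norm_num, Real.log_pow]
        norm_num
      linarith
  have hh : 0 < Real.log 4 / (4 * Real.log x) := by positivity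
  have hh2 : Real.log 4 / (4 * Real.log x) ≤ 1 / 2 := by
    rw [div_le_iff₀ (by positivity)]
    linarith
  have h7 := h2 (Real.log 4 / (4 * Real.log x)) (Real.log (4 * N / x) / (4 * Real.log x)) hh hh2 hu
  have h8 : tw x N = max 0 (1 - |Real.log (4 * N / x) / (4 * Real.log x)| /
      (Real.log 4 / (4 * Real.log x))) := by
    rw [tw]
    congr 2
    rw [abs_div, abs_of_pos (by positivity : (0 : ℝ) < 4 * Real.log x)]
    field_simp
  rw [h8]
  exact h7

theorem bw (h1 : StmtBI) (h2 : StmtTF) : StmtBW := by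
  obtain ⟨C0, hC0, hBI⟩ := h1
  refine ⟨9 * C0, by positivity, 4, ?_⟩
  intro x k P M1 M2 f g a hx hk hP hM1 hM2 hMM ha
  have hx0 : (4 : ℝ) ≤ x := by exact_mod_cast hx
  have hxp : (0 : ℝ) < x := by linarith
  have hL4 : Real.log 4 ≤ Real.log x := Real.log_le_log (by norm_num) hx0
  have h4 := one_le_log_four
  have hL : 0 < Real.log x := by linarith
  have hL1 : 1 ≤ Real.log x := by linarith
  have hPp : (0 : ℝ) < P := by exact_mod_cast hP
  have hlogP : 0 ≤ Real.log P := Real.log_natCast_nonneg P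
  set h : ℝ := Real.log 4 / (4 * Real.log x) with hh
  have hhp : 0 < h := by rw [hh]; positivity
  have hh2 : h ≤ 1 / 2 := by
    rw [hh, div_le_iff₀ (by positivity)]
    linarith
  have hhinv : 1 / h ≤ 4 * Real.log x := by
    rw [hh, one_div_div]
    exact div_le_self (by positivity) h4
  set S : ℝ := √((M1 / k + 1 + P ^ 2 * (1 + Real.log P)) * (M2 / k + 1 + P ^ 2 * (1 + Real.log P)) *
        ((∑ m ∈ Ioc M1 (2 * M1), f m ^ 2) * ∑ n ∈ Ioc M2 (2 * M2), g n ^ 2)) with hS
  have hS0 : 0 ≤ S := Real.sqrt_nonneg _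
  let T : (ℕ → ℝ) → (ℕ → ℝ) → ℕ → ℝ := fun f' g' p =>
    ∑ m ∈ Ioc M1 (2 * M1), ∑ n ∈ Ioc M2 (2 * M2), f' m * g' n * dl k p (a p) (m * n)
  have hT : ∀ f' g' : ℕ → ℝ, (∀ m, |f' m| ≤ |f m|) → (∀ n, |g' n| ≤ |g n|) →
      ∑ p ∈ prk k P, |T f' g' p| ≤ C0 / P * S := by
    intro f' g' hf hg
    have h3 := hBI k P M1 M1 M2 M2 f' g' a hk hP ha
    rw [← two_mul, ← two_mul] at h3
    refine h3.trans ?_
    have h5 : ∑ m ∈ Ioc M1 (2 * M1), f' m ^ 2 ≤ ∑ m ∈ Ioc M1 (2 * M1), f m ^ 2 :=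
      sum_le_sum fun m _ => sq_le_sq.2 (hf m)
    have h6 : ∑ n ∈ Ioc M2 (2 * M2), g' n ^ 2 ≤ ∑ n ∈ Ioc M2 (2 * M2), g n ^ 2 :=
      sum_le_sum fun m _ => sq_le_sq.2 (hg m)
    have h7 : 0 ≤ ∑ n ∈ Ioc M2 (2 * M2), g' n ^ 2 := sum_nonneg fun _ _ => sq_nonneg _
    have h8 : 0 ≤ ∑ m ∈ Ioc M1 (2 * M1), f m ^ 2 := sum_nonneg fun _ _ => sq_nonneg _
    rw [hS]
    gcongr
  let W : ℕ → ℝ := fun p => ∑ m ∈ Ioc M1 (2 * M1), ∑ n ∈ Ioc M2 (2 * M2),
      f m * g n * (tw x (m * n) * dl k p (a p) (m * n))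
  let A : ℕ → ℕ → ℝ := fun ν m => 2 * Real.pi * ((ν : ℝ) + 1) * (Real.log m / (4 * Real.log x))
  let B : ℕ → ℕ → ℝ := fun ν n =>
    2 * Real.pi * ((ν : ℝ) + 1) * ((Real.log n + Real.log (4 / x)) / (4 * Real.log x))
  let U : ℕ → ℕ → ℝ := fun ν p =>
    T (fun m => f m * Real.cos (A ν m)) (fun n => g n * Real.cos (B ν n)) p -
    T (fun m => f m * Real.sin (A ν m)) (fun n => g n * Real.sin (B ν n)) p
  have hUsum : ∀ ν, ∑ p ∈ prk k P, |U ν p| ≤ 2 * (C0 / P * S) := by
    intro ν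
    have h3 := hT (fun m => f m * Real.cos (A ν m)) (fun n => g n * Real.cos (B ν n))
      (fun m => by
        rw [abs_mul]
        exact mul_le_of_le_one_right (abs_nonneg _) (Real.abs_cos_le_one _))
      (fun m => by
        rw [abs_mul]
        exact mul_le_of_le_one_right (abs_nonneg _) (Real.abs_cos_le_one _))
    have h5 := hT (fun m => f m * Real.sin (A ν m)) (fun n => g n * Real.sin (B ν n))
      (fun m => by
        rw [abs_mul]
        exact mul_le_of_le_one_right (abs_nonneg _) (Real.abs_sin_le_one _))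
      (fun m => by
        rw [abs_mul]
        exact mul_le_of_le_one_right (abs_nonneg _) (Real.abs_sin_le_one _))
    calc ∑ p ∈ prk k P, |U ν p| ≤ ∑ p ∈ prk k P,
          (|T (fun m => f m * Real.cos (A ν m)) (fun n => g n * Real.cos (B ν n)) p| +
            |T (fun m => f m * Real.sin (A ν m)) (fun n => g n * Real.sin (B ν n)) p|) :=
          sum_le_sum fun p _ => abs_sub _ _
      _ ≤ 2 * (C0 / P * S) := by
          rw [sum_add_distrib]
          linarith
  have hWsum : ∀ p, HasSum (fun ν : ℕ => cf h ν * U ν p) (W p - h * T f g p) := by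
    intro p
    have h3 : HasSum (fun ν : ℕ => ∑ m ∈ Ioc M1 (2 * M1), ∑ n ∈ Ioc M2 (2 * M2),
        (f m * g n * dl k p (a p) (m * n)) * (cf h ν * Real.cos (2 * Real.pi * ((ν : ℝ) + 1) *
          (Real.log (4 * ((m * n : ℕ) : ℝ) / x) / (4 * Real.log x)))))
        (∑ m ∈ Ioc M1 (2 * M1), ∑ n ∈ Ioc M2 (2 * M2),
          (f m * g n * dl k p (a p) (m * n)) * (tw x (m * n) - h)) := by
      refine hasSum_sum fun m hm => hasSum_sum fun n hn => ?_
      rw [mem_Ioc] at hm hn
      have h5 : 1 ≤ m * n := Nat.one_le_iff_ne_zero.2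
        (Nat.mul_ne_zero (by omega) (by omega))
      have h6 : m * n ≤ 4 * x := by
        calc m * n ≤ (2 * M1) * (2 * M2) := Nat.mul_le_mul hm.2 hn.2
          _ = 4 * (M1 * M2) := by ring
          _ ≤ 4 * x := Nat.mul_le_mul_left _ hMM
      exact (tent_hasSum h2 hx h5 h6).mul_left _
    convert h3 using 1
    · funext ν
      simp only [U, T]
      rw [mul_sub, mul_sum, mul_sum, ← sum_sub_distrib]
      refine sum_congr rfl fun m hm => ?_
      rw [mul_sum, mul_sum, ← sum_sub_distrib]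
      refine sum_congr rfl fun n hn => ?_
      rw [mem_Ioc] at hm hn
      have hm0 : (m : ℝ) ≠ 0 := by
        have : 0 < m := by omega
        positivity
      have hn0 : (n : ℝ) ≠ 0 := by
        have : 0 < n := by omega
        positivity
      have h5 : Real.log (4 * ((m * n : ℕ) : ℝ) / x) =
          Real.log m + (Real.log n + Real.log (4 / x)) := by
        rw [← Real.log_mul hn0 (by positivity), ← Real.log_mul hm0 (by positivity)]
        congr 1
        push_cast
        ring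
      have h6 : 2 * Real.pi * ((ν : ℝ) + 1) *
          (Real.log (4 * ((m * n : ℕ) : ℝ) / x) / (4 * Real.log x)) = A ν m + B ν n := by
        rw [h5]
        simp only [A, B]
        ring
      rw [h6, Real.cos_add]
      ring
    · simp only [W, T]
      rw [mul_sum, ← sum_sub_distrib]
      refine sum_congr rfl fun m _ => ?_
      rw [mul_sum, ← sum_sub_distrib]
      refine sum_congr rfl fun n _ => ?_
      ring
  -- the bound for the series
  have hbound : ∑ p ∈ prk k P, |W p - h * T f g p| ≤ 1 / h * (2 * (C0 / P * S)) := by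
    have h3 : Tendsto (fun K : ℕ => ∑ p ∈ prk k P, |∑ ν ∈ range K, cf h ν * U ν p|) atTop
        (𝓝 (∑ p ∈ prk k P, |W p - h * T f g p|)) :=
      tendsto_finsetSum _ fun p _ => ((hWsum p).tendsto_sum_nat).abs
    refine le_of_tendsto' h3 fun K => ?_
    calc ∑ p ∈ prk k P, |∑ ν ∈ range K, cf h ν * U ν p|
        ≤ ∑ p ∈ prk k P, ∑ ν ∈ range K, |cf h ν| * |U ν p| := by
          refine sum_le_sum fun p _ => (abs_sum_le_sum_abs _ _).trans ?_
          exact sum_le_sum fun ν _ => (abs_mul _ _).le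
      _ = ∑ ν ∈ range K, |cf h ν| * ∑ p ∈ prk k P, |U ν p| := by
          rw [sum_comm]
          exact sum_congr rfl fun ν _ => (mul_sum _ _ _).symm
      _ ≤ ∑ ν ∈ range K, |cf h ν| * (2 * (C0 / P * S)) :=
          sum_le_sum fun ν _ => mul_le_mul_of_nonneg_left (hUsum ν) (abs_nonneg _)
      _ = (∑ ν ∈ range K, |cf h ν|) * (2 * (C0 / P * S)) := by rw [sum_mul]
      _ ≤ 1 / h * (2 * (C0 / P * S)) :=
          mul_le_mul_of_nonneg_right (sum_abs_cf_le hhp K) (by positivity)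
  have hTfg := hT f g (fun _ => le_rfl) (fun _ => le_rfl)
  have hQ : 0 ≤ C0 / P * S := by positivity
  calc ∑ p ∈ prk k P, |W p|
      ≤ ∑ p ∈ prk k P, (|W p - h * T f g p| + h * |T f g p|) := by
        refine sum_le_sum fun p _ => ?_
        have h3 : |W p| ≤ |W p - h * T f g p| + |h * T f g p| := by
          have := abs_add_le (W p - h * T f g p) (h * T f g p)
          simpa using this
        rwa [abs_mul, abs_of_pos hhp] at h3
    _ = ∑ p ∈ prk k P, |W p - h * T f g p| + h * ∑ p ∈ prk k P, |T f g p| := by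
        rw [sum_add_distrib, mul_sum]
    _ ≤ 1 / h * (2 * (C0 / P * S)) + h * (C0 / P * S) := by gcongr
    _ = (2 * (1 / h) + h) * (C0 / P * S) := by ring
    _ ≤ (9 * Real.log x) * (C0 / P * S) := by
        refine mul_le_mul_of_nonneg_right ?_ hQ
        linarith
    _ = 9 * C0 * Real.log x / P * S := by ring

end Pool.Agent.Helper55.CG
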